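import Mathlib

namespace Pool.Agent.H.MP_9991fb_an
open Set Filter Topology BoundedContinuousFunction
open scoped Classical

inductive T (Γ : Type) : Type
  | leaf (i : Γ) : T Γ
  | lin (s : ℝ) (a b : T Γ) : T Γ
  | ext (r : ℕ → ℝ) (f : ℕ → T Γ) : T Γ

noncomputable def cl (θ : ℝ) (s r : ℕ → ℝ) : ℝ :=
  max (⨆ n, s n - r n) (min θ (⨅ n, s n + r n))

theorem cl_near {θ c ε : ℝ} {s r : ℕ → ℝ} (h : ∀ n k, s n - r n ≤ s k + r k)
    (h1 : ∀ n, s n - r n ≤ c + ε) (h2 : ∀ n, c - ε ≤ s n + r n) (h3 : |θ - c| ≤ ε) :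
    |cl θ s r - c| ≤ ε := by
  have a1 : (⨆ n, s n - r n) ≤ c + ε := ciSup_le h1
  have a2 : c - ε ≤ ⨅ n, s n + r n := le_ciInf h2
  rw [abs_le] at h3 ⊢
  have a3 : cl θ s r ≤ c + ε := max_le a1 ((min_le_left _ _).trans (by linarith [h3.2]))
  have a4 : c - ε ≤ cl θ s r := le_max_of_le_right (le_min (by linarith [h3.1]) a2)
  constructor <;> linarith

theorem cl_mem {θ : ℝ} {s r : ℕ → ℝ} (h : ∀ n k, s n - r n ≤ s k + r k) (n : ℕ) :
    |cl θ s r - s n| ≤ r n := by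
  have a1 : s n - r n ≤ cl θ s r :=
    le_max_of_le_left (le_ciSup (f := fun n => s n - r n) ⟨s 0 + r 0, by
      rintro _ ⟨k, rfl⟩; exact h k 0⟩ n)
  have a2 : cl θ s r ≤ s n + r n :=
    max_le (ciSup_le fun k => h k n) ((min_le_right _ _).trans
      (ciInf_le (f := fun n => s n + r n) ⟨s 0 - r 0, by rintro _ ⟨k, rfl⟩; exact h 0 k⟩ n))
  rw [abs_le]; constructor <;> linarith

theorem cl_eq {θ : ℝ} {s r : ℕ → ℝ} (h : ∀ n, |θ - s n| ≤ r n) : cl θ s r = θ := by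
  have := @cl_near θ θ 0 s r
    (fun n k => by linarith [(abs_le.1 (h n)).1, (abs_le.1 (h k)).2])
    (fun n => by linarith [(abs_le.1 (h n)).1]) (fun n => by linarith [(abs_le.1 (h n)).2])
    (by simp)
  exact sub_eq_zero.1 (abs_nonpos_iff.1 this)

def GX {Y : Type} [NormedAddCommGroup Y] [NormedSpace ℝ Y] (m : Prop) (r : ℕ → ℝ)
    (x : ℕ → Y) : Prop :=
  (∀ n, 0 ≤ r n) ∧ (∀ n k, ‖x n - x k‖ ≤ r n + r k) ∧
  (m → ∀ η > 0, ∃ N, ∀ n, ∃ k < N, ‖(1 + r n)⁻¹ • x n - (1 + r k)⁻¹ • x k‖ ≤ η)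

variable {Γ : Type}

def Base (R : ℝ) (φ : T Γ → ℝ) : Prop := ∀ J : Finset Γ, ∑ j ∈ J, |φ (.leaf j)| ≤ R

structure Fr (Γ : Type) (R : ℝ) (m : Prop) (X : Type) [NormedAddCommGroup X] [NormedSpace ℝ X]
    (v : T Γ → X) : Prop where
  surj : Function.Surjective v
  lin : ∀ s a b, v (.lin s a b) = v a + s • v b
  good : ∀ r f, GX m r (fun n => v (f n)) → ∀ n, ‖v (.ext r f) - v (f n)‖ ≤ r n
  bad : ∀ r f, ¬ GX m r (fun n => v (f n)) → v (.ext r f) = 0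
  base : ∀ φ : X →L[ℝ] ℝ, ‖φ‖ ≤ 1 → Base R fun t => φ (v t)
  free : ∀ θ : T Γ → ℝ, Base R θ → ∃ φ : X →L[ℝ] ℝ, ‖φ‖ ≤ 1 ∧
    (∀ i, φ (v (.leaf i)) = θ (.leaf i)) ∧
    ∀ r f, GX m r (fun n => v (f n)) →
      φ (v (.ext r f)) = cl (θ (.ext r f)) (fun n => φ (v (f n))) r

def Q (m : Prop) (r : ℕ → ℝ) (S : Set (ℕ → ℝ)) : Prop :=
  (∀ n, 0 ≤ r n) ∧ (∀ n k, ∀ s ∈ S, |s n - s k| ≤ r n + r k) ∧
  (m → ∀ η > 0, ∃ N, ∀ n, ∃ k < N, ∀ s ∈ S, |(1 + r n)⁻¹ * s n - (1 + r k)⁻¹ * s k| ≤ η)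

variable (R : ℝ) (m : Prop)

def P : T Γ → (T Γ → ℝ) → Prop
  | .leaf _ => fun _ => True
  | .lin s a b => fun φ => P a φ ∧ P b φ ∧ φ (.lin s a b) = φ a + s * φ b
  | .ext r f => fun φ => (∀ k, P (f k) φ) ∧
      (if Q m r {s | ∃ ψ, Base R ψ ∧ (∀ k, P (f k) ψ) ∧ s = fun n => ψ (f n)} then
        ∀ n, |φ (.ext r f) - φ (f n)| ≤ r n else φ (.ext r f) = 0)

def Good (r : ℕ → ℝ) (f : ℕ → T Γ) : Prop :=
  Q m r {s | ∃ ψ, Base R ψ ∧ (∀ k, P R m (f k) ψ) ∧ s = fun n => ψ (f n)}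

noncomputable def E (θ : T Γ → ℝ) : T Γ → ℝ
  | .leaf i => θ (.leaf i)
  | .lin s a b => E θ a + s * E θ b
  | .ext r f => if Good R m r f then cl (θ (.ext r f)) (fun n => E θ (f n)) r else 0

theorem P_ext (r : ℕ → ℝ) (f : ℕ → T Γ) (φ : T Γ → ℝ) : P R m (.ext r f) φ ↔
    (∀ k, P R m (f k) φ) ∧ (if Good R m r f then ∀ n, |φ (.ext r f) - φ (f n)| ≤ r n
      else φ (.ext r f) = 0) := Iff.rfl

variable {R m}

theorem EP {θ : T Γ → ℝ} (h : Base R θ) (t : T Γ) : P R m t (E R m θ) := by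
  induction t with
  | leaf i => trivial
  | lin s a b ha hb => exact ⟨ha, hb, rfl⟩
  | ext r f ih =>
    rw [P_ext]
    refine ⟨ih, ?_⟩
    split_ifs with g
    · intro n
      rw [E, if_pos g]
      refine cl_mem (fun n k => ?_) n
      have := g.2.1 n k _ ⟨E R m θ, h, ih, rfl⟩
      linarith [(abs_le.1 this).2]
    · rw [E, if_neg g]

theorem EA {ψ : T Γ → ℝ} (t : T Γ) (h : P R m t ψ) : E R m ψ t = ψ t := by
  induction t with
  | leaf i => rfl
  | lin s a b ha hb => rw [E, ha h.1, hb h.2.1, h.2.2]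
  | ext r f ih =>
    rw [P_ext] at h
    rw [E]
    by_cases g : Good R m r f
    · rw [if_pos g]
      have h2 := h.2
      rw [if_pos g] at h2
      simp only [fun n => ih n (h.1 n)]
      exact cl_eq h2
    · have h2 := h.2
      rw [if_neg g] at h2 ⊢
      exact h2.symm

variable (Γ R m)

def K : Type := {φ : T Γ → ℝ // Base R φ ∧ ∀ t, P R m t φ}

instance : TopologicalSpace (K Γ R m) := instTopologicalSpaceSubtype

variable {Γ R m}

theorem bdd (t : T Γ) : ∃ C, ∀ φ : K Γ R m, |φ.1 t| ≤ C := by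
  induction t with
  | leaf i => exact ⟨R, fun φ => by simpa using φ.2.1 {i}⟩
  | lin s a b ha hb =>
    obtain ⟨C, hC⟩ := ha
    obtain ⟨D, hD⟩ := hb
    refine ⟨C + |s| * D, fun φ => ?_⟩
    rw [(φ.2.2 (.lin s a b)).2.2]
    refine (abs_add_le _ _).trans (add_le_add (hC φ) ?_)
    rw [abs_mul]
    exact mul_le_mul_of_nonneg_left (hD φ) (abs_nonneg _)
  | ext r f ih =>
    obtain ⟨C, hC⟩ := ih 0
    refine ⟨C + |r 0|, fun φ => ?_⟩
    have h := ((P_ext R m r f φ.1).1 (φ.2.2 _)).2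
    split_ifs at h with g
    · have := abs_sub_abs_le_abs_sub (φ.1 (.ext r f)) (φ.1 (f 0))
      linarith [h 0, hC φ, le_abs_self (r 0)]
    · rw [h, abs_zero]
      linarith [abs_nonneg (r 0), abs_nonneg (φ.1 (f 0)), hC φ]

variable (R m)

noncomputable def hat (t : T Γ) : K Γ R m →ᵇ ℝ :=
  ofNormedAddCommGroup (fun φ => φ.1 t) ((continuous_apply t).comp continuous_subtype_val)
    (bdd (R := R) (m := m) t).choose (bdd t).choose_spec

theorem hat_apply (t : T Γ) (φ : K Γ R m) : hat R m t φ = φ.1 t := rfl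

theorem hat_lin (s : ℝ) (a b : T Γ) : hat R m (.lin s a b) = hat R m a + s • hat R m b := by
  ext φ
  exact (φ.2.2 (.lin s a b)).2.2

theorem hat_zero (b : T Γ) : hat R m (.lin (-1) b b) = 0 := by
  ext φ
  change φ.1 _ = 0
  rw [(φ.2.2 (.lin (-1) b b)).2.2]
  ring

theorem good_iff (r : ℕ → ℝ) (f : ℕ → T Γ) :
    Good R m r f ↔ GX m r (fun n => hat R m (f n)) := by
  have e : {s : ℕ → ℝ | ∃ ψ, Base R ψ ∧ (∀ k, P R m (f k) ψ) ∧ s = fun n => ψ (f n)} =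
      range fun (φ : K Γ R m) n => φ.1 (f n) := by
    ext s
    constructor
    · rintro ⟨ψ, h1, h2, rfl⟩
      exact ⟨⟨E R m ψ, h1, EP h1⟩, funext fun n => EA _ (h2 n)⟩
    · rintro ⟨φ, rfl⟩
      exact ⟨φ.1, φ.2.1, fun k => φ.2.2 _, rfl⟩
  rw [Good, e, Q, GX]
  refine and_congr_right fun h0 => and_congr ?_ ?_
  · refine forall₂_congr fun n k => ?_
    rw [norm_le (add_nonneg (h0 n) (h0 k)), forall_mem_range]
    rfl
  · refine imp_congr_right fun _ => forall₂_congr fun η hη => exists_congr fun N =>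
      forall_congr' fun n => exists_congr fun k => and_congr_right fun _ => ?_
    rw [norm_le hη.le, forall_mem_range]
    rfl

theorem hat_good {r : ℕ → ℝ} {f : ℕ → T Γ} (g : Good R m r f) (n : ℕ) :
    ‖hat R m (.ext r f) - hat R m (f n)‖ ≤ r n := by
  rw [norm_le (g.1 n)]
  intro φ
  have h := ((P_ext R m r f φ.1).1 (φ.2.2 _)).2
  rw [if_pos g] at h
  exact h n

theorem GX_of_tendsto {Y : Type} [NormedAddCommGroup Y] [NormedSpace ℝ Y] (m : Prop)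
    {r : ℕ → ℝ} {x : ℕ → Y} (h0 : ∀ n, 0 ≤ r n) (h1 : ∀ n k, ‖x n - x k‖ ≤ r n + r k)
    (h : m → TotallyBounded (range fun n => (1 + r n)⁻¹ • x n)) : GX m r x := by
  refine ⟨h0, h1, fun hm η hη => ?_⟩
  obtain ⟨t, ht, tf, hc⟩ := Metric.finite_approx_of_totallyBounded (h hm) η hη
  have ht' : ∀ y ∈ t, ∃ n, (1 + r n)⁻¹ • x n = y := ht
  choose! g hg using ht'
  obtain ⟨N, hN⟩ := (tf.image g).bddAbove
  refine ⟨N + 1, fun n => ?_⟩
  obtain ⟨y, hy, hb⟩ := mem_iUnion₂.1 (hc ⟨n, rfl⟩)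
  refine ⟨g y, Nat.lt_succ_of_le (hN ⟨y, hy, rfl⟩), ?_⟩
  rw [hg y hy, ← dist_eq_norm]
  exact (Metric.mem_ball.1 hb).le

variable [Inhabited Γ]

def Xs : Submodule ℝ (K Γ R m →ᵇ ℝ) where
  carrier := range (hat R m)
  add_mem' := by
    rintro _ _ ⟨a, rfl⟩ ⟨b, rfl⟩
    exact ⟨.lin 1 a b, by rw [hat_lin, one_smul]⟩
  zero_mem' := ⟨.lin (-1) (.leaf default) (.leaf default), hat_zero R m _⟩
  smul_mem' := by
    rintro s _ ⟨b, rfl⟩
    exact ⟨.lin s (.lin (-1) b b) b, by rw [hat_lin, hat_zero, zero_add]⟩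

theorem Xs_closed : IsClosed ((Xs R m : Submodule ℝ (K Γ R m →ᵇ ℝ)) : Set (K Γ R m →ᵇ ℝ)) := by
  refine IsSeqClosed.isClosed fun x z hx hz => ?_
  choose f hf using hx
  have g : Good R m (fun n => ‖z - x n‖) f := by
    rw [good_iff]
    simp only [hf]
    refine GX_of_tendsto m (fun n => norm_nonneg _) (fun n k => ?_) fun _ => ?_
    · rw [norm_sub_rev z (x n)]
      exact norm_sub_le_norm_sub_add_norm_sub _ _ _
    · have : Tendsto (fun n => (1 + ‖z - x n‖)⁻¹ • x n) atTop (𝓝 ((1 + ‖z - z‖)⁻¹ • z)) :=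
        ((tendsto_const_nhds.add (tendsto_const_nhds.sub hz).norm).inv₀ (by simp)).smul hz
      exact this.isCompact_insert_range.totallyBounded.subset (subset_insert _ _)
  refine ⟨.ext (fun n => ‖z - x n‖) f, ?_⟩
  have h1 := (tendsto_const_nhds (x := hat R m (.ext (fun n => ‖z - x n‖) f)).sub hz).norm
  have h2 := (tendsto_const_nhds (x := z).sub hz).norm
  have := le_of_tendsto_of_tendsto' h1 h2 fun n => by
    have := hat_good R m g n
    rwa [hf] at this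
  rw [sub_self, norm_zero] at this
  exact sub_eq_zero.1 (norm_le_zero_iff.1 this)

theorem exFr (hR : 0 ≤ R) : ∃ (X : Type) (_ : NormedAddCommGroup X) (_ : NormedSpace ℝ X)
    (_ : CompleteSpace X) (v : T Γ → X), Fr Γ R m X v := by
  have e : ∀ r (f : ℕ → T Γ), GX m r (fun n => (⟨hat R m (f n), f n, rfl⟩ : Xs R m)) ↔
      Good R m r f := fun r f => by rw [good_iff]; rfl
  refine ⟨Xs R m, inferInstance, inferInstance, (Xs_closed R m).completeSpace_coe,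
    fun t => ⟨hat R m t, t, rfl⟩, ?_, ?_, ?_, ?_, ?_, ?_⟩
  · rintro ⟨_, t, rfl⟩
    exact ⟨t, rfl⟩
  · exact fun s a b => Subtype.ext (hat_lin R m s a b)
  · exact fun r f g n => hat_good R m ((e r f).1 g) n
  · intro r f g
    refine Subtype.ext (BoundedContinuousFunction.ext fun φ => ?_)
    have h := ((P_ext R m r f φ.1).1 (φ.2.2 _)).2
    rw [if_neg (mt (e r f).2 g)] at h
    exact h
  · intro φ hφ J
    set w : Γ → Xs R m := fun j => ⟨hat R m (.leaf j), .leaf j, rfl⟩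
    have h1 : ∑ j ∈ J, |φ (w j)| = φ (∑ j ∈ J, (SignType.sign (φ (w j)) : ℝ) • w j) := by
      rw [map_sum]
      exact Finset.sum_congr rfl fun j _ => by rw [map_smul, smul_eq_mul, sign_mul_self]
    have h2 : ‖∑ j ∈ J, (SignType.sign (φ (w j)) : ℝ) • w j‖ ≤ R := by
      rw [← Submodule.norm_coe, norm_le hR]
      intro ψ
      rw [Submodule.coe_sum, BoundedContinuousFunction.sum_apply]
      refine (norm_sum_le _ _).trans ((Finset.sum_le_sum fun j _ => ?_).trans (ψ.2.1 J))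
      change |(SignType.sign (φ (w j)) : ℝ) * ψ.1 (.leaf j)| ≤ _
      rw [abs_mul]
      refine mul_le_of_le_one_left (abs_nonneg _) ?_
      rcases SignType.sign (φ (w j)) <;> simp
    refine h1.trans_le ((le_abs_self _).trans ((φ.le_opNorm _).trans ?_))
    nlinarith [norm_nonneg φ, norm_nonneg (∑ j ∈ J, (SignType.sign (φ (w j)) : ℝ) • w j)]
  · intro θ hθ
    let k : K Γ R m := ⟨E R m θ, hθ, EP hθ⟩
    refine ⟨(evalCLM ℝ k).comp (Xs R m).subtypeL, ?_, fun i => rfl, fun r f g => ?_⟩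
    · refine ContinuousLinearMap.opNorm_le_bound _ zero_le_one fun x => ?_
      rw [one_mul]
      exact norm_coe_le_norm x.1 k
    · change E R m θ (.ext r f) = _
      rw [E, if_pos ((e r f).1 g)]
      rfl

end Pool.Agent.H.MP_9991fb_an
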