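import Pool.Agent.H.MP_9991fb_an.A
import Pool.Agent.H.MP_dc9a2a_an.B

namespace Pool.Agent.H.MP_9991fb_an
open Set Filter Topology
open scoped Classical

variable {Γ : Type} {R : ℝ} {m : Prop} {X : Type} [NormedAddCommGroup X] [NormedSpace ℝ X]
  {v : T Γ → X} {B : Type} [NormedAddCommGroup B] [NormedSpace ℝ B]

def anc : T Γ → Set (T Γ)
  | .leaf _ => ∅
  | .lin _ a b => anc a ∪ anc b
  | .ext r f => insert (.ext r f) (⋃ n, anc (f n))

theorem anc_count (t : T Γ) : (anc t).Countable := by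
  induction t with
  | leaf i => exact countable_empty
  | lin s a b ha hb => exact ha.union hb
  | ext r f ih => exact (countable_iUnion ih).insert _

noncomputable def rk : T Γ → Ordinal.{0}
  | .leaf _ => 0
  | .lin _ a b => max (rk a) (rk b)
  | .ext _ f => ⨆ n, Order.succ (rk (f n))

theorem rk_lt (r : ℕ → ℝ) (f : ℕ → T Γ) (n : ℕ) : rk (f n) < rk (.ext r f) :=
  Order.succ_le_iff.1 (Ordinal.le_iSup (fun n => Order.succ (rk (f n))) n)

theorem rk_anc (t : T Γ) : ∀ s ∈ anc t, rk s ≤ rk t := by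
  induction t with
  | leaf i => exact fun s hs => hs.elim
  | lin c a b ha hb =>
    exact fun s hs => hs.elim (fun h => le_max_of_le_left (ha s h))
      fun h => le_max_of_le_right (hb s h)
  | ext r f ih =>
    rintro s (rfl | hs)
    · exact le_rfl
    · obtain ⟨n, hn⟩ := mem_iUnion.1 hs
      exact (ih n s hn).trans (rk_lt r f n).le

theorem not_anc (r : ℕ → ℝ) (f : ℕ → T Γ) : T.ext r f ∉ ⋃ n, anc (f n) := fun h => by
  obtain ⟨n, hn⟩ := mem_iUnion.1 h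
  exact (rk_lt r f n).not_ge (rk_anc _ _ hn)

def Cl (v : T Γ → X) (A : Set (T Γ)) (Y : Submodule ℝ X) : Prop :=
  IsClosed (Y : Set X) ∧ (∀ i, v (.leaf i) ∈ Y) ∧
    ∀ r f, T.ext r f ∈ A → (∀ n, v (f n) ∈ Y) → v (.ext r f) ∈ Y

def Gen (v : T Γ → X) (A : Set (T Γ)) : Submodule ℝ X := sInf {Y | Cl v A Y}

theorem mem_Gen {A : Set (T Γ)} {x : X} : x ∈ Gen v A ↔ ∀ Y, Cl v A Y → x ∈ Y :=
  Submodule.mem_sInf

theorem Gen_cl (A : Set (T Γ)) : Cl v A (Gen v A) := by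
  refine ⟨?_, fun i => mem_Gen.2 fun Y h => h.2.1 i,
    fun r f h1 h2 => mem_Gen.2 fun Y h => h.2.2 r f h1 fun n => mem_Gen.1 (h2 n) Y h⟩
  rw [Gen, Submodule.coe_sInf]
  exact isClosed_biInter fun Y h => h.1

theorem Gen_mono {A A' : Set (T Γ)} (h : A ⊆ A') : Gen v A ≤ Gen v A' := fun _ hx =>
  mem_Gen.1 hx _ ⟨(Gen_cl A').1, (Gen_cl A').2.1, fun r f h1 => (Gen_cl A').2.2 r f (h h1)⟩

theorem Fr.mem_anc (F : Fr Γ R m X v) {A : Set (T Γ)} (t : T Γ) (h : anc t ⊆ A) :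
    v t ∈ Gen v A := by
  induction t with
  | leaf i => exact (Gen_cl A).2.1 i
  | lin s a b ha hb =>
    rw [F.lin]
    exact add_mem (ha (subset_union_left.trans h))
      (Submodule.smul_mem _ _ (hb (subset_union_right.trans h)))
  | ext r f ih =>
    exact (Gen_cl A).2.2 r f (h (mem_insert _ _)) fun n =>
      ih n (((subset_iUnion (fun n => anc (f n)) n).trans (subset_insert _ _)).trans h)

theorem ab1 (φ : X →L[ℝ] ℝ) (h : ‖φ‖ ≤ 1) (x : X) : |φ x| ≤ ‖x‖ :=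
  (φ.le_opNorm x).trans (mul_le_of_le_one_left (norm_nonneg _) h)

theorem Fr.agree (F : Fr Γ R m X v) {A : Set (T Γ)} {θ : T Γ → ℝ} {φ ψ : X →L[ℝ] ℝ}
    (hψ : ‖ψ‖ ≤ 1) (h1 : ∀ i, φ (v (.leaf i)) = ψ (v (.leaf i)))
    (h2 : ∀ r f, GX m r (fun n => v (f n)) →
      φ (v (.ext r f)) = cl (θ (.ext r f)) (fun n => φ (v (f n))) r)
    (h3 : ∀ t ∈ A, θ t = ψ (v t)) : ∀ x ∈ Gen v A, φ x = ψ x := by
  intro x hx
  refine mem_Gen.1 hx (LinearMap.eqLocus φ.toLinearMap ψ.toLinearMap) ⟨isClosed_eq φ.continuous ψ.continuous, h1, ?_⟩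
  intro r f ht hf
  change φ _ = ψ _
  by_cases g : GX m r (fun n => v (f n))
  · have hf' : ∀ n, φ (v (f n)) = ψ (v (f n)) := hf
    rw [h2 r f g, h3 _ ht]
    simp only [hf']
    refine cl_eq fun n => ?_
    rw [← map_sub]
    exact (ab1 ψ hψ _).trans (F.good r f g n)
  · rw [F.bad r f g, map_zero, map_zero]

def Iso (G : Submodule ℝ (B × X)) : Prop := ∀ p ∈ G, ‖p.1‖ = ‖p.2‖

theorem Fr.lower (F : Fr Γ R m X v) {A : Set (T Γ)} {G : Submodule ℝ (B × X)} (hG : Iso G)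
    (hA : ∀ p ∈ G, p.2 ∈ Gen v A) {r : ℕ → ℝ} {f : ℕ → T Γ} (g : GX m r fun n => v (f n))
    (hs : T.ext r f ∉ A) {a : ℕ → B} (ha : ∀ n, (a n, v (f n)) ∈ G) {b : B}
    (hb : ∀ n, ‖b - a n‖ ≤ r n) : ∀ p ∈ G, ‖b - p.1‖ ≤ ‖v (.ext r f) - p.2‖ := by
  intro p hp
  obtain ⟨χ, h1, h2⟩ := exists_dual_vector'' ℝ (b - p.1)
  obtain ⟨ψ, hψ, e⟩ := MP_dc9a2a_an.HB ((LinearMap.snd ℝ B X).comp G.subtype)
    (χ.toLinearMap.comp ((LinearMap.fst ℝ B X).comp G.subtype)) zero_le_one fun q => by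
      rw [one_mul]
      exact (ab1 χ h1 q.1.1).trans (hG q.1 q.2).le
  have e' : ∀ q ∈ G, ψ q.2 = χ q.1 := fun q hq => e ⟨q, hq⟩
  obtain ⟨φ, hφ, l1, l2⟩ := F.free (Function.update (fun t => ψ (v t)) (.ext r f) (χ b)) (by
    have := F.base ψ hψ
    intro J
    simpa using this J)
  have ag := F.agree (A := A) hψ (fun i => by simpa using l1 i) l2 fun t ht =>
    Function.update_of_ne (by rintro rfl; exact hs ht) _ _
  have h3 : φ (v (.ext r f)) = χ b := by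
    rw [l2 r f g, Function.update_self]
    refine cl_eq fun n => ?_
    rw [ag _ (hA _ (ha n)), e' _ (ha n), ← map_sub]
    exact (ab1 χ h1 _).trans (hb n)
  have h4 : φ (v (.ext r f) - p.2) = ‖b - p.1‖ := by
    rw [map_sub, h3, ag _ (hA p hp), e' p hp, ← map_sub, h2]
    rfl
  rw [← h4]
  exact (le_abs_self _).trans (ab1 φ hφ _)

theorem GX.tr {G : Submodule ℝ (B × X)} (hG : Iso G) {r : ℕ → ℝ} {a : ℕ → B} {x : ℕ → X}
    (h : ∀ n, (a n, x n) ∈ G) : GX m r a ↔ GX m r x := by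
  have e1 : ∀ n k, ‖a n - a k‖ = ‖x n - x k‖ := fun n k => hG _ (G.sub_mem (h n) (h k))
  have e2 : ∀ n k (c d : ℝ), ‖c • a n - d • a k‖ = ‖c • x n - d • x k‖ := fun n k c d =>
    hG _ (G.sub_mem (G.smul_mem c (h n)) (G.smul_mem d (h k)))
  simp only [GX, e1, e2]

theorem Iso.add {G : Submodule ℝ (B × X)} (hG : Iso G) {b : B} {y : X}
    (h : ∀ p ∈ G, ‖b - p.1‖ = ‖y - p.2‖) : Iso (G ⊔ Submodule.span ℝ {(b, y)}) := by
  intro q hq
  obtain ⟨p, hp, z, hz, rfl⟩ := Submodule.mem_sup.1 hq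
  obtain ⟨c, rfl⟩ := Submodule.mem_span_singleton.1 hz
  rcases eq_or_ne c 0 with rfl | hc
  · simpa using hG p hp
  have := h _ (G.smul_mem (-c⁻¹) hp)
  have e1 : (p + c • (b, y)).1 = c • (b - ((-c⁻¹) • p).1) := by
    simp [smul_add, smul_smul, hc, add_comm]
  have e2 : (p + c • (b, y)).2 = c • (y - ((-c⁻¹) • p).2) := by
    simp [smul_add, smul_smul, hc, add_comm]
  rw [e1, e2, norm_smul, norm_smul, this]

theorem Fr.step (F : Fr Γ R m X v) {G : Submodule ℝ (B × X)} (hG : Iso G)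
    (h1 : TopologicalSpace.IsSeparable (Prod.fst '' (G : Set (B × X))))
    (h2 : m → FiniteDimensional ℝ G) (b : B) :
    ∃ r f, (∀ n, ∃ a, (a, v (f n)) ∈ G) ∧ ∀ p ∈ G, ‖b - p.1‖ = ‖v (.ext r f) - p.2‖ := by
  have := h1.separableSpace
  have : Nonempty (Prod.fst '' (G : Set (B × X))) := ⟨⟨0, 0, G.zero_mem, rfl⟩⟩
  obtain ⟨u, hu⟩ := TopologicalSpace.exists_dense_seq (Prod.fst '' (G : Set (B × X)))
  have : ∀ n, ∃ t, ((u n).1, v t) ∈ G := fun n => by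
    obtain ⟨p, hp, e⟩ := (u n).2
    obtain ⟨t, ht⟩ := F.surj p.2
    exact ⟨t, by rw [← e, ht]; exact hp⟩
  choose f hf using this
  have dn : ∀ p ∈ G, ∀ ε > 0, ∃ n, ‖p.1 - (u n).1‖ < ε ∧ ‖p.2 - v (f n)‖ < ε := fun p hp ε hε => by
    obtain ⟨n, hn⟩ := Metric.denseRange_iff.1 hu ⟨p.1, p, hp, rfl⟩ ε hε
    rw [Subtype.dist_eq, dist_eq_norm] at hn
    exact ⟨n, hn, (hG _ (G.sub_mem hp (hf n))).symm.trans_lt hn⟩
  have g : GX m (fun n => ‖b - (u n).1‖) fun n => v (f n) := by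
    refine (GX.tr hG hf).1 (GX_of_tendsto m (fun n => norm_nonneg _) (fun n k => ?_) fun hm => ?_)
    · rw [norm_sub_rev b (u n).1]
      exact norm_sub_le_norm_sub_add_norm_sub _ _ _
    · have := h2 hm
      have := FiniteDimensional.proper_real G
      refine ((isCompact_closedBall (0 : G) (1 + ‖b‖)).image
        (f := fun q : G => q.1.1) (by fun_prop)).totallyBounded.subset ?_
      rintro _ ⟨n, rfl⟩
      refine ⟨(1 + ‖b - (u n).1‖)⁻¹ • ⟨_, hf n⟩, ?_, rfl⟩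
      have h0 : 0 < 1 + ‖b - (u n).1‖ := by positivity
      rw [mem_closedBall_zero_iff, norm_smul, norm_inv, Real.norm_of_nonneg h0.le,
        inv_mul_le_iff₀ h0, ← Submodule.norm_coe, Prod.norm_def, ← hG _ (hf n), max_self]
      have := norm_sub_norm_le (u n).1 b
      rw [norm_sub_rev] at this
      nlinarith [norm_nonneg b, norm_nonneg (b - (u n).1)]
  refine ⟨fun n => ‖b - (u n).1‖, f, fun n => ⟨_, hf n⟩, fun p hp => le_antisymm ?_ ?_⟩
  · refine F.lower hG (fun q hq => ?_) g (not_anc _ f) hf (fun n => le_rfl) p hp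
    refine (Gen_cl _).1.closure_subset (Metric.mem_closure_iff.2 fun ε hε => ?_)
    obtain ⟨n, -, hn⟩ := dn q hq ε hε
    exact ⟨v (f n), F.mem_anc _ (subset_iUnion (fun n => anc (f n)) n), by rwa [dist_eq_norm]⟩
  · refine le_of_forall_pos_le_add fun ε hε => ?_
    obtain ⟨n, a1, a2⟩ := dn p hp (ε / 2) (half_pos hε)
    have a3 := F.good _ f g n
    have a4 := norm_sub_le_norm_sub_add_norm_sub (v (.ext (fun n => ‖b - (u n).1‖) f)) (v (f n)) p.2
    have a5 := norm_sub_le_norm_sub_add_norm_sub b p.1 (u n).1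
    rw [norm_sub_rev] at a2
    linarith

theorem iso_chain {c : Set (Submodule ℝ (B × X))} (hc : IsChain (· ≤ ·) c) (hn : c.Nonempty)
    (h : ∀ G ∈ c, Iso G) : Iso (sSup c) := fun p hp => by
  obtain ⟨G, hG, hp⟩ := (Submodule.mem_sSup_of_directed hn hc.directedOn).1 hp
  exact h G hG p hp

theorem Iso.map {G : Submodule ℝ (B × X)} (hG : Iso G) (h : ∀ b, ∃ y, (b, y) ∈ G) :
    ∃ w : B →ₗᵢ[ℝ] X, ∀ p ∈ G, w p.1 = p.2 := by
  choose w hw using h
  have u : ∀ p ∈ G, w p.1 = p.2 := fun p hp => by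
    have := hG _ (G.sub_mem (hw p.1) hp)
    simpa [sub_eq_zero, eq_comm (a := (0 : ℝ))] using this
  exact ⟨⟨⟨⟨w, fun a b => u _ (G.add_mem (hw a) (hw b))⟩, fun c a => u _ (G.smul_mem c (hw a))⟩,
    fun b => (hG _ (hw b)).symm⟩, u⟩

theorem Fr.ud (F : Fr Γ R m X v) [TopologicalSpace.SeparableSpace B]
    (h2 : m → FiniteDimensional ℝ B) {A : Type} [NormedAddCommGroup A] [NormedSpace ℝ A]
    (u : A →ₗᵢ[ℝ] X) (i : A →ₗᵢ[ℝ] B) : ∃ w : B →ₗᵢ[ℝ] X, ∀ a, w (i a) = u a := by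
  have h0 : Iso (LinearMap.range (i.toLinearMap.prod u.toLinearMap)) := by
    rintro _ ⟨a, rfl⟩
    exact (i.norm_map a).trans (u.norm_map a).symm
  obtain ⟨G, hle, hG⟩ := zorn_le_nonempty₀ {G : Submodule ℝ (B × X) | Iso G}
    (fun c hc ch G hG => ⟨sSup c, iso_chain ch ⟨G, hG⟩ hc, fun _ h => le_sSup h⟩) _ h0
  obtain ⟨w, hw⟩ := Iso.map hG.prop fun b => by
    obtain ⟨r, f, -, h⟩ := F.step hG.prop (TopologicalSpace.IsSeparable.of_separableSpace _)
      (fun hm => by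
        have := h2 hm
        refine FiniteDimensional.of_injective ((LinearMap.fst ℝ B X).comp G.subtype)
          (LinearMap.ker_eq_bot.1 (LinearMap.ker_eq_bot'.2 fun q hq => ?_))
        have h1 : q.1.1 = 0 := hq
        have h3 := hG.prop q.1 q.2
        rw [h1, norm_zero, eq_comm, norm_eq_zero] at h3
        exact Subtype.ext (Prod.ext h1 h3)) b
    exact ⟨_, hG.le_of_ge (Iso.add hG.prop h) le_sup_left
      (Submodule.mem_sup_right (Submodule.mem_span_singleton_self _))⟩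
  exact ⟨w, fun a => hw _ (hle ⟨a, rfl⟩)⟩

end Pool.Agent.H.MP_9991fb_an
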