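import Pool.Agent.H.MP_9991fb_an.B

namespace Pool.Agent.H.MP_9991fb_an
open Set Filter Topology Cardinal
open scoped Classical

def code {Γ : Type} : T Γ → List ℕ → Γ ⊕ ℝ ⊕ (ℕ → ℝ)
  | .leaf i, _ => .inl i
  | .lin s _ _, [] => .inr (.inl s)
  | .lin _ a _, 0 :: l => code a l
  | .lin _ _ b, (_ + 1) :: l => code b l
  | .ext r _, [] => .inr (.inr r)
  | .ext _ f, k :: l => code (f k) l

theorem code_inj {Γ : Type} (t : T Γ) : ∀ s, code t = code s → t = s := by
  induction t with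
  | leaf i =>
    intro s h
    have := congrFun h []
    cases s <;> simp_all [code]
  | lin c a b ha hb =>
    intro s h
    have := congrFun h []
    cases s with
    | leaf i => simp [code] at this
    | ext r f => simp [code] at this
    | lin c' a' b' =>
      have e1 := ha a' (funext fun l => congrFun h (0 :: l))
      have e2 := hb b' (funext fun l => congrFun h (1 :: l))
      simp_all [code]
  | ext r f ih =>
    intro s h
    have := congrFun h []
    cases s with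
    | leaf i => simp [code] at this
    | lin c a b => simp [code] at this
    | ext r' f' =>
      have e1 : f = f' := funext fun k => ih k _ (funext fun l => congrFun h (k :: l))
      simp_all [code]

theorem card_T {Γ : Type} {κ : Cardinal} (h1 : #Γ ≤ κ) (h2 : 𝔠 ≤ κ) (h3 : κ ^ ℵ₀ ≤ κ) :
    #(T Γ) ≤ κ := by
  refine (mk_le_of_injective (f := code) fun a b => code_inj a b).trans ?_
  have hi : ℵ₀ ≤ κ := aleph0_le_continuum.trans h2
  have : #(Γ ⊕ ℝ ⊕ (ℕ → ℝ)) ≤ κ := by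
    simp only [mk_sum, lift_id, mk_real, mk_pi, prod_const, mk_nat, continuum_power_aleph0]
    exact add_le_of_le hi h1 (add_le_of_le hi h2 h2)
  rw [← power_def, mk_eq_aleph0 (List ℕ)]
  exact (power_le_power_right this).trans h3

theorem EK {Y : Type} (h : #Y ≤ 2 ^ 𝔠) : ∃ (I : Type) (θ : I → Y → ℝ), #I ≤ 𝔠 ∧
    ∀ A : Set Y, A.Countable → ∀ ψ : Y → ℝ, ∃ α, ∀ t ∈ A, θ α t = ψ t := by
  obtain ⟨e⟩ : Nonempty (Y ↪ (ℝ → Bool)) := by
    rw [← Cardinal.le_def]
    simpa [mk_real] using h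
  refine ⟨(ℕ → ℝ) × (ℕ → (ℕ → Bool) × ℝ), fun α t =>
    if h : ∃ n, (α.2 n).1 = fun k => e t (α.1 k) then (α.2 h.choose).2 else 0,
    by simp [mk_real], ?_⟩
  intro A hA ψ
  rcases A.eq_empty_or_nonempty with rfl | hn
  · exact ⟨default, fun t ht => ht.elim⟩
  obtain ⟨s, rfl⟩ := hA.exists_eq_range hn
  have : ∀ n k, ∃ d, e (s n) d = e (s k) d → s n = s k := fun n k => by
    by_contra H
    push Not at H
    exact (H 0).2 (e.injective (funext fun d => (H d).1))
  choose d hd using this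
  refine ⟨(fun k => d k.unpair.1 k.unpair.2,
    fun n => (fun k => e (s n) (d k.unpair.1 k.unpair.2), ψ (s n))), ?_⟩
  rintro _ ⟨k, rfl⟩
  have hx : ∃ n, (fun j : ℕ => e (s n) (d j.unpair.1 j.unpair.2)) =
      fun j : ℕ => e (s k) (d j.unpair.1 j.unpair.2) := ⟨k, rfl⟩
  simp only [dif_pos hx]
  have := congrFun hx.choose_spec (Nat.pair hx.choose k)
  simp only [Nat.unpair_pair] at this
  rw [hd _ _ this]

theorem nontr {X : Type} [NormedAddCommGroup X] [NormedSpace ℝ X] {v : T (Set ℝ) → X}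
    (F : Fr (Set ℝ) 1 False X v) :
    ∃ x y : X, ‖x‖ = 1 ∧ ‖y‖ = 1 ∧ ∀ U : X ≃ₗᵢ[ℝ] X, U x ≠ y := by
  set z : T (Set ℝ) := .lin (-1) (.leaf ∅) (.leaf ∅)
  have hz : v z = 0 := by rw [F.lin, neg_one_smul, add_neg_cancel]
  set yn : T (Set ℝ) := .ext (fun _ => 1) fun _ => z
  have g : GX False (fun _ => 1) fun _ : ℕ => v z := ⟨by simp, by simp, False.elim⟩
  have hy : ∀ φ : X →L[ℝ] ℝ, ‖φ‖ ≤ 1 → ∃ φ' : X →L[ℝ] ℝ, ‖φ'‖ ≤ 1 ∧ φ' (v yn) = 1 ∧
      ∀ i, φ' (v (.leaf i)) = φ (v (.leaf i)) := fun φ hφ => by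
    obtain ⟨φ', a1, a2, a3⟩ := F.free (Function.update (fun t => φ (v t)) yn 1) fun J => by
      simpa [yn] using F.base φ hφ J
    refine ⟨φ', a1, ?_, fun i => by simpa [yn] using a2 i⟩
    rw [a3 _ _ g, Function.update_self]
    exact cl_eq fun n => by simp [hz]
  have hl : ∀ i, ‖v (.leaf i)‖ = 1 := fun i => by
    obtain ⟨φ, a1, a2⟩ := exists_dual_vector'' ℝ (v (.leaf i))
    obtain ⟨ψ, b1, b2, -⟩ := F.free (Pi.single (.leaf i) 1) fun J => by
      simp only [Pi.single_apply, T.leaf.injEq, apply_ite abs, abs_one, abs_zero,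
        Finset.sum_ite_eq']
      split_ifs <;> norm_num
    have c1 := F.base φ a1 {i}
    have c2 := ab1 ψ b1 (v (.leaf i))
    simp only [Finset.sum_singleton, a2, RCLike.ofReal_real_eq_id, id, abs_norm] at c1
    rw [b2, Pi.single_eq_same, abs_one] at c2
    exact le_antisymm c1 c2
  refine ⟨v (.leaf ∅), v yn, hl _, le_antisymm (by simpa [hz] using F.good _ _ g 0) ?_, ?_⟩
  · obtain ⟨φ, a1, a2, -⟩ := hy 0 (by simp)
    simpa [a2] using ab1 φ a1 (v yn)
  intro U hU
  have hb : ∀ φ : X →L[ℝ] ℝ, ‖φ‖ ≤ 1 → ∀ J : Finset (Set ℝ),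
      ∑ j ∈ J, |φ (U (v (.leaf j)))| ≤ 1 := fun φ hφ =>
    F.base (φ.comp U.toContinuousLinearEquiv.toContinuousLinearMap)
      (ContinuousLinearMap.opNorm_le_bound _ zero_le_one fun x => by
        simpa using ab1 φ hφ (U x))
  obtain ⟨I, θ, hI, hθ⟩ := EK (Y := T (Set ℝ)) (card_T (by simp [mk_real]) (cantor _).le (by
    rw [← power_mul]; simp))
  have := fun α => F.free (fun t => if ∃ i, t = .leaf i then 0 else θ α t) fun J => by simp
  choose φ h1 h2 h3 using this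
  obtain ⟨i, hi⟩ : ∃ i, i ∉ insert ∅ (⋃ α, Function.support fun j => |φ α (U (v (.leaf j)))|) := by
    by_contra H
    push Not at H
    have e1 := mk_le_mk_of_subset (s := univ) fun i _ => H i
    have e2 : #(⋃ α, Function.support fun j => |φ α (U (v (.leaf j)))|) ≤ 𝔠 := by
      refine (mk_iUnion_le _).trans ((mul_le_mul' hI (ciSup_le' fun α => ?_)).trans
        continuum_mul_aleph0.le)
      exact le_aleph0_iff_set_countable.2
        (summable_of_sum_le (fun _ => abs_nonneg _) (hb _ (h1 α))).countable_support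
    have e3 := (e1.trans mk_insert_le).trans (add_le_of_le aleph0_le_continuum e2
      (one_le_aleph0.trans aleph0_le_continuum))
    simp only [mk_univ, mk_set, mk_real] at e3
    exact (cantor _).not_ge e3
  simp only [mem_insert_iff, mem_iUnion, Function.mem_support, not_or, not_exists, ne_eq,
    not_not, abs_eq_zero] at hi
  obtain ⟨t, ht⟩ := F.surj (U (v (.leaf i)))
  obtain ⟨χ, c1, c2⟩ := exists_dual_vector'' ℝ (v t)
  obtain ⟨χ', d1, d2, d3⟩ := hy χ c1
  have d4 := hb χ' d1 {i, ∅}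
  rw [Finset.sum_pair hi.1, hU, d2, abs_one, add_le_iff_nonpos_left, abs_nonpos_iff] at d4
  set ψ : X →L[ℝ] ℝ := (1 / 2 : ℝ) • (χ - χ')
  have p1 : ‖ψ‖ ≤ 1 := by
    rw [norm_smul, Real.norm_of_nonneg (by norm_num)]
    linarith [norm_sub_le χ χ']
  have p2 : ∀ j, ψ (v (.leaf j)) = 0 := fun j => by simp [ψ, d3]
  obtain ⟨α, hα⟩ := hθ _ (anc_count t) fun s => ψ (v s)
  have := F.agree (A := anc t) (θ := fun t => if ∃ i, t = .leaf i then 0 else θ α t) p1
    (fun j => by rw [h2, p2]; simp) (h3 α) (fun s hs => by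
    beta_reduce
    split_ifs with h
    · obtain ⟨j, rfl⟩ := h
      exact (p2 j).symm
    · exact hα s hs) _ (F.mem_anc t subset_rfl)
  rw [ht, hi.2 α] at this
  rw [ht, U.norm_map, hl] at c2
  simp [ψ, c2, d4] at this

theorem main1 : ∃ (X : Type) (_ : NormedAddCommGroup X) (_ : NormedSpace ℝ X)
    (_ : CompleteSpace X),
    (∀ (A B : Type) [NormedAddCommGroup A] [NormedSpace ℝ A] [NormedAddCommGroup B]
      [NormedSpace ℝ B] [TopologicalSpace.SeparableSpace B] (u : A →ₗᵢ[ℝ] X) (i : A →ₗᵢ[ℝ] B),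
      ∃ w : B →ₗᵢ[ℝ] X, ∀ a, w (i a) = u a) ∧
    ∃ (E F : Submodule ℝ X) (h : E ≃ₗᵢ[ℝ] F), Module.finrank ℝ E = 1 ∧ Module.finrank ℝ F = 1 ∧
      ¬ ∃ U : X ≃ₗᵢ[ℝ] X, ∀ e : E, U e = h e := by
  obtain ⟨X, i1, i2, i3, v, F⟩ := exFr (Γ := Set ℝ) 1 False zero_le_one
  obtain ⟨x, y, hx, hy, h⟩ := nontr F
  refine ⟨X, i1, i2, i3, fun A B _ _ _ _ _ u i => F.ud False.elim u i, _, _,
    (LinearIsometryEquiv.toSpanUnitSingleton x hx).symm.trans
      (LinearIsometryEquiv.toSpanUnitSingleton y hy),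
    finrank_span_singleton (by rintro rfl; simp at hx),
    finrank_span_singleton (by rintro rfl; simp at hy), ?_⟩
  rintro ⟨U, hU⟩
  have := hU (LinearIsometryEquiv.toSpanUnitSingleton x hx 1)
  rw [LinearIsometryEquiv.trans_apply, LinearIsometryEquiv.symm_apply_apply] at this
  simp only [LinearIsometryEquiv.toSpanUnitSingleton_apply, one_smul] at this
  exact h U this

end Pool.Agent.H.MP_9991fb_an
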