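import Pool.Agent.H.MP_9991fb_an.C

namespace Pool.Agent.H.MP_9991fb_an
open Set Filter Topology Cardinal
open scoped Classical

theorem sepPi {Y : Type} (h : #Y ≤ 𝔠) : TopologicalSpace.SeparableSpace (Y → ℝ) := by
  obtain ⟨e⟩ : Nonempty (Y ↪ ℝ) := by
    rw [← Cardinal.le_def, mk_real]
    exact h
  refine DenseRange.separableSpace (f := fun (g : C(ℝ, ℝ)) t => g (e t))
    (dense_iff_inter_open.2 ?_) (continuous_pi fun t => continuous_eval_const (e t))
  rintro U hU ⟨θ, hθ⟩
  obtain ⟨I, u, h1, h2⟩ := isOpen_pi_iff.1 hU θ hθ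
  refine ⟨_, h2 fun a ha => ?_, ⟨⟨fun x => (Lagrange.interpolate I e θ).eval x,
    Polynomial.continuous _⟩, rfl⟩⟩
  change (Lagrange.interpolate I e θ).eval (e a) ∈ _
  rw [Lagrange.eval_interpolate_at_node _ e.injective.injOn ha]
  exact (h1 a ha).2

variable {X : Type} [NormedAddCommGroup X] [NormedSpace ℝ X] {v : T Unit → X}

theorem Fr.leaf0 (F : Fr Unit 0 True X v) (i : Unit) : v (.leaf i) = 0 := by
  obtain ⟨φ, a1, a2⟩ := exists_dual_vector'' ℝ (v (.leaf i))
  simpa [a2] using F.base φ a1 {i}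

theorem Fr.total (F : Fr Unit 0 True X v) : ∃ φ : ℕ → X →L[ℝ] ℝ, (∀ n, ‖φ n‖ ≤ 1) ∧
    ∀ x, (∀ n, φ n x = 0) → x = 0 := by
  have := fun θ : T Unit → ℝ =>
    F.free (fun t => if ∃ i, t = .leaf i then 0 else θ t) fun J => by simp
  choose Φ h1 h2 h3 using this
  simp only [reduceCtorEq, exists_false, if_false] at h3
  have key : ∀ ψ : X →L[ℝ] ℝ, ‖ψ‖ ≤ 1 / 2 → ∀ t, Tendsto (fun θ => Φ θ (v t))
      (𝓝 fun s => ψ (v s)) (𝓝 (ψ (v t))) := fun ψ hψ t => by
    induction t with
    | leaf i => simp [F.leaf0]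
    | lin s a b ha hb => simpa [F.lin] using ha.add (hb.const_mul s)
    | ext r f ih =>
      by_cases g : GX True r (fun n => v (f n))
      swap
      · simp [F.bad r f g]
      refine Metric.tendsto_nhds.2 fun ε hε => ?_
      set η := min (ε / 4) (1 / 6)
      have hη : 0 < η := lt_min (by positivity) (by norm_num)
      have e1 : η ≤ ε / 4 := min_le_left _ _
      have e2 : η ≤ 1 / 6 := min_le_right _ _
      obtain ⟨N, hN⟩ := g.2.2 trivial η hη
      have a1 := (Finset.range N).eventually_all.2 fun k _ => Metric.tendsto_nhds.1 (ih k) η hη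
      have a2 := Metric.tendsto_nhds.1
        ((continuous_apply (T.ext r f)).tendsto fun s => ψ (v s)) η hη
      filter_upwards [a1, a2] with θ b1 b2
      have b3 : ∀ n, |Φ θ (v (f n)) - ψ (v (f n))| ≤ 3 * η * (1 + r n) := fun n => by
        obtain ⟨k, hk, c1⟩ := hN n
        have c2 := (b1 k (Finset.mem_range.2 hk)).le
        have r0 : 0 < 1 + r n := by linarith [g.1 n]
        have c3 : ‖Φ θ - ψ‖ ≤ 2 := by linarith [norm_sub_le (Φ θ) ψ, h1 θ]
        have c4 := ((Φ θ - ψ).le_opNorm _).trans (mul_le_mul c3 c1 (norm_nonneg _) zero_le_two)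
        rw [map_sub, map_smul, map_smul] at c4
        have c5 : ‖(1 + r k)⁻¹ • (Φ θ - ψ) (v (f k))‖ ≤ η := by
          rw [norm_smul, norm_inv, Real.norm_of_nonneg (by linarith [g.1 k])]
          exact (mul_le_of_le_one_left (norm_nonneg _)
            (inv_le_one_of_one_le₀ (by linarith [g.1 k]))).trans c2
        have c6 := norm_sub_norm_le ((1 + r n)⁻¹ • (Φ θ - ψ) (v (f n)))
          ((1 + r k)⁻¹ • (Φ θ - ψ) (v (f k)))
        have c7 : ‖(1 + r n)⁻¹ • (Φ θ - ψ) (v (f n))‖ ≤ 3 * η := by linarith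
        rw [norm_smul, norm_inv, Real.norm_of_nonneg r0.le, inv_mul_le_iff₀ r0, mul_comm] at c7
        exact c7
      have b4 : ∀ n, |ψ (v (.ext r f)) - ψ (v (f n))| ≤ 1 / 2 * r n := fun n => by
        rw [← map_sub]
        exact (ψ.le_opNorm _).trans (mul_le_mul hψ (F.good r f g n) (norm_nonneg _) (by norm_num))
      rw [Real.dist_eq] at b2 ⊢
      rw [h3 θ r f g]
      refine (cl_near (ε := 3 * η) (fun n k => ?_) (fun n => ?_) (fun n => ?_)
        (by linarith)).trans_lt (by linarith)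
      · have := (ab1 _ (h1 θ) _).trans (g.2.1 n k)
        rw [map_sub] at this
        linarith [(abs_le.1 this).2]
      · nlinarith [(abs_le.1 (b3 n)).2, (abs_le.1 (b4 n)).1, g.1 n]
      · nlinarith [(abs_le.1 (b3 n)).1, (abs_le.1 (b4 n)).2, g.1 n]
  have := sepPi (Y := T Unit) (card_T (by simpa using one_le_aleph0.trans aleph0_le_continuum)
    le_rfl continuum_power_aleph0.le)
  obtain ⟨u, hu⟩ := TopologicalSpace.exists_dense_seq (T Unit → ℝ)
  refine ⟨fun n => Φ (u n), fun n => h1 _, fun x hx => ?_⟩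
  obtain ⟨t, rfl⟩ := F.surj x
  obtain ⟨χ, c1, c2⟩ := exists_dual_vector'' ℝ (v t)
  by_contra H
  have := key ((1 / 2 : ℝ) • χ) (by rw [norm_smul, Real.norm_of_nonneg (by norm_num)]; linarith) t
  obtain ⟨n, hn⟩ := hu.mem_nhds (this.eventually_ne (b₂ := 0) (by simp [c2, H]))
  exact hn (hx n)

theorem rotund (φ : ℕ → X →L[ℝ] ℝ) (h1 : ∀ n, ‖φ n‖ ≤ 1) (h2 : ∀ x, (∀ n, φ n x = 0) → x = 0) :
    ∃ N : Seminorm ℝ X, (∃ C : ℝ, ∀ x, ‖x‖ ≤ C * N x ∧ N x ≤ C * ‖x‖) ∧
      ∀ x y, N (x + y) = 2 * N x → 2 * N x = 2 * N y → x = y := by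
  let A : ℕ → X →L[ℝ] lp (fun _ : ℕ => ℝ) 2 := fun n =>
    ((1 / 2 : ℝ) ^ n) • (φ n).smulRight (lp.single 2 n 1)
  have hA : Summable A := Summable.of_norm_bounded summable_geometric_two fun n => by
    rw [norm_smul, ContinuousLinearMap.norm_smulRight_apply, lp.norm_single (by norm_num),
      norm_one, mul_one, Real.norm_of_nonneg (by positivity)]
    exact mul_le_of_le_one_right (by positivity) (h1 n)
  set J := ∑' n, A n
  have hJ : Function.Injective J := (injective_iff_map_eq_zero J).2 fun x hx => h2 x fun k => by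
    have a1 := ((innerSL ℝ (lp.single 2 k (1 : ℝ) : lp (fun _ : ℕ => ℝ) 2)).comp
      (ContinuousLinearMap.apply ℝ _ x)).hasSum hA.hasSum
    have a2 := a1.unique (hasSum_single k fun n hn => by
      simp [A, lp.inner_single_left, Pi.single_apply, hn.symm])
    rw [ContinuousLinearMap.comp_apply, ContinuousLinearMap.apply_apply, hx] at a2
    simpa [A, lp.inner_single_left] using a2.symm
  let N : Seminorm ℝ X := normSeminorm ℝ X + (normSeminorm ℝ _).comp J.toLinearMap
  have hN : ∀ x, N x = ‖x‖ + ‖J x‖ := fun x => rfl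
  refine ⟨N, ⟨1 + ‖J‖, fun x => ?_⟩, fun x y a1 a2 => ?_⟩
  · rw [hN]
    constructor <;> nlinarith [norm_nonneg x, norm_nonneg J, norm_nonneg (J x), J.le_opNorm x]
  have a3 : N x = N y := by linarith
  have z : ∀ x, N x = 0 → x = 0 := fun x hx => by
    rw [hN] at hx
    exact norm_eq_zero.1 (by linarith [norm_nonneg x, norm_nonneg (J x)])
  have a4 : SameRay ℝ (J x) (J y) := sameRay_iff_norm_add.2 (by
    simp only [hN, map_add] at a1 a3
    linarith [norm_add_le x y, norm_add_le (J x) (J y)])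
  rcases (hJ.sameRay_map_iff (f := J)).1 a4 with rfl | rfl | ⟨c, d, hc, hd, e⟩
  · exact (z y (by simpa using a3.symm)).symm
  · exact z x (by simpa using a3)
  have a5 := congrArg N e
  rw [map_smul_eq_mul, map_smul_eq_mul, Real.norm_of_nonneg hc.le, Real.norm_of_nonneg hd.le,
    ← a3] at a5
  rcases mul_eq_mul_right_iff.1 a5 with rfl | h0
  · exact smul_right_injective X hc.ne' e
  · rw [z x h0, z y (a3 ▸ h0)]

end Pool.Agent.H.MP_9991fb_an
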