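import Pool.Agent.H.MP_9991fb_an.D

namespace Pool.Agent.H.MP_9991fb_an
open Set Filter Topology Cardinal
open scoped Classical

variable {X : Type} [NormedAddCommGroup X] [NormedSpace ℝ X] {v : T Unit → X}

theorem anc_tr {Γ : Type} (t : T Γ) : ∀ s ∈ anc t, anc s ⊆ anc t := by
  induction t with
  | leaf i => exact fun s hs => hs.elim
  | lin c a b ha hb =>
    exact fun s hs => hs.elim (fun h => (ha s h).trans subset_union_left)
      fun h => (hb s h).trans subset_union_right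
  | ext r f ih =>
    rintro s (rfl | hs)
    · exact subset_rfl
    · obtain ⟨n, hn⟩ := mem_iUnion.1 hs
      exact (ih n s hn).trans ((subset_iUnion (fun n => anc (f n)) n).trans (subset_insert _ _))

theorem Fr.supp (F : Fr Unit 0 True X v) (E : Submodule ℝ X) [FiniteDimensional ℝ E] :
    ∃ a : ℕ → T Unit, E ≤ Gen v (range a) ∧ ∀ n, v (a n) ∈ Gen v (range a) := by
  obtain ⟨s, rfl⟩ := (Submodule.fg_top E).1 Module.Finite.fg_top
  choose g hg using F.surj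
  obtain ⟨a, ha⟩ := ((s.countable_toSet.biUnion fun x _ => anc_count (g x)).insert
    (.leaf ())).exists_eq_range (insert_nonempty _ _)
  have h : ∀ x ∈ s, anc (g x) ⊆ range a := fun x hx => by
    rw [← ha]
    exact (subset_biUnion_of_mem (u := fun x => anc (g x)) hx).trans (subset_insert _ _)
  refine ⟨a, Submodule.span_le.2 fun x hx => ?_, fun n => ?_⟩
  · rw [← hg x]
    exact F.mem_anc _ (h x hx)
  · have : a n ∈ range a := ⟨n, rfl⟩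
    rw [← ha] at this
    rcases this with e | e
    · rw [e]
      exact (Gen_cl _).2.1 _
    · obtain ⟨x, hx, e⟩ := mem_iUnion₂.1 e
      exact F.mem_anc _ ((anc_tr _ _ e).trans (h x hx))

def sw (G : Submodule ℝ (X × X)) : Submodule ℝ (X × X) :=
  G.map (LinearEquiv.prodComm ℝ X X).toLinearMap

theorem mem_sw {G : Submodule ℝ (X × X)} {p : X × X} : p ∈ sw G ↔ (p.2, p.1) ∈ G :=
  Submodule.mem_map_equiv _

theorem Iso.sw {G : Submodule ℝ (X × X)} (h : Iso G) : Iso (sw G) := fun _ hp =>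
  (h _ (mem_sw.1 hp)).symm

structure Inv (v : T Unit → X) (A0 B0 : Set (T Unit)) (G : Submodule ℝ (X × X))
    (A B : Set (T Unit)) : Prop where
  a1 : Iso G
  a2 : FiniteDimensional ℝ G
  a3 : A.Countable
  a4 : B.Countable
  a5 : A0 ⊆ A
  a6 : B0 ⊆ B
  a7 : ∀ p ∈ G, p.1 ∈ Gen v A ∧ p.2 ∈ Gen v B
  a8 : ∀ t ∈ A, t ∈ A0 ∨ ∃ y, (v t, y) ∈ G
  a9 : ∀ t ∈ B, t ∈ B0 ∨ ∃ x, (x, v t) ∈ G

theorem Inv.sw {A0 B0 G A B} (h : Inv v A0 B0 G A B) : Inv v B0 A0 (sw G) B A := by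
  obtain ⟨a1, a2, a3, a4, a5, a6, a7, a8, a9⟩ := h
  exact ⟨a1.sw, Module.Finite.map _ _, a4, a3, a6, a5, fun p hp => (a7 _ (mem_sw.1 hp)).symm,
    fun t ht => (a9 t ht).imp_right fun ⟨x, hx⟩ => ⟨x, mem_sw.2 hx⟩,
    fun t ht => (a8 t ht).imp_right fun ⟨x, hx⟩ => ⟨x, mem_sw.2 hx⟩⟩

theorem sup_ind {G : Submodule ℝ (X × X)} {Y Z : Submodule ℝ X} {q : X × X}
    (h : ∀ p ∈ G, p.1 ∈ Y ∧ p.2 ∈ Z) (h1 : q.1 ∈ Y) (h2 : q.2 ∈ Z) :
    ∀ p ∈ G ⊔ Submodule.span ℝ {q}, p.1 ∈ Y ∧ p.2 ∈ Z := fun _ hp =>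
  (sup_le (c := Y.prod Z) h ((Submodule.span_singleton_le_iff_mem _ _).2 ⟨h1, h2⟩)) hp

theorem sepG (G : Submodule ℝ (X × X)) [FiniteDimensional ℝ G] :
    TopologicalSpace.IsSeparable (Prod.fst '' (G : Set (X × X))) := by
  have := FiniteDimensional.proper_real G
  have h : Continuous fun q : G => q.1.1 := continuous_fst.comp continuous_subtype_val
  refine (TopologicalSpace.isSeparable_range h).mono ?_
  rintro _ ⟨p, hp, rfl⟩
  exact ⟨⟨p, hp⟩, rfl⟩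

theorem Fr.half (F : Fr Unit 0 True X v) {A0 B0 G A B} (h : Inv v A0 B0 G A B) {x : X}
    (hx : x ∈ Gen v A0) : ∃ G' B', Inv v A0 B0 G' A B' ∧ G ≤ G' ∧ B ⊆ B' ∧ ∃ y, (x, y) ∈ G' := by
  obtain ⟨a1, a2, a3, a4, a5, a6, a7, a8, a9⟩ := h
  obtain ⟨r, f, b1, b2⟩ := F.step a1 (sepG G) (fun _ => a2) x
  have m1 : (x, v (.ext r f)) ∈ G ⊔ Submodule.span ℝ {(x, v (.ext r f))} :=
    Submodule.mem_sup_right (Submodule.mem_span_singleton_self _)
  have m2 := Gen_mono (v := v) (subset_insert (.ext r f) B)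
  have m3 : v (.ext r f) ∈ Gen v (insert (.ext r f) B) :=
    (Gen_cl _).2.2 r f (mem_insert _ _) fun n => by
      obtain ⟨a, ha⟩ := b1 n
      exact m2 (a7 _ ha).2
  have m4 := sup_ind (q := (x, v (.ext r f))) (fun p hp => ⟨(a7 p hp).1, m2 (a7 p hp).2⟩)
    (Gen_mono a5 hx) m3
  have m5 : FiniteDimensional ℝ ↥(G ⊔ Submodule.span ℝ {(x, v (.ext r f))}) :=
    Submodule.finiteDimensional_sup _ _
  have m6 := a1.add b2
  have m7 : G ≤ G ⊔ Submodule.span ℝ {(x, v (.ext r f))} := le_sup_left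
  generalize G ⊔ Submodule.span ℝ {(x, v (.ext r f))} = G' at m1 m4 m5 m6 m7
  have m8 : B ⊆ insert (T.ext r f) B := subset_insert _ _
  refine ⟨G', insert (T.ext r f) B, ?_, m7, m8, v (.ext r f), m1⟩
  refine ⟨m6, m5, a3, a4.insert _, a5, a6.trans m8, m4, fun t ht => ?_, ?_⟩
  · exact (a8 t ht).imp_right fun ⟨y, hy⟩ => ⟨y, m7 hy⟩
  · rintro t (rfl | ht)
    · exact .inr ⟨x, m1⟩
    · exact (a9 t ht).imp_right fun ⟨y, hy⟩ => ⟨y, m7 hy⟩

theorem Fr.init (F : Fr Unit 0 True X v) {G0 : Submodule ℝ (X × X)} (h0 : Iso G0)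
    [FiniteDimensional ℝ G0] : ∃ (G : Submodule ℝ (X × X)) (A B : Set (T Unit)), Iso G ∧ G0 ≤ G ∧
      A.Countable ∧ B.Countable ∧ (∀ p ∈ G, p.1 ∈ Gen v A ∧ p.2 ∈ Gen v B) ∧
      (∀ t ∈ A, ∃ y, (v t, y) ∈ G) ∧ ∀ t ∈ B, ∃ x, (x, v t) ∈ G := by
  obtain ⟨a, a1, a2⟩ := F.supp (G0.map (LinearMap.fst ℝ X X))
  obtain ⟨b, b1, b2⟩ := F.supp (G0.map (LinearMap.snd ℝ X X))
  let S := {s : Submodule ℝ (X × X) × Set (T Unit) × Set (T Unit) //
    Inv v (range a) (range b) s.1 s.2.1 s.2.2}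
  have st : ∀ (n : ℕ) (s : S), ∃ s' : S, s.1.1 ≤ s'.1.1 ∧ (∃ y, (v (a n), y) ∈ s'.1.1) ∧
        ∃ x, (x, v (b n)) ∈ s'.1.1 := fun n s => by
    obtain ⟨G1, B1, c1, c2, -, y, hy⟩ := F.half s.2 (a2 n)
    obtain ⟨G2, A2, d1, d2, -, x, hx⟩ := F.half c1.sw (b2 n)
    have e : G1 ≤ sw G2 := fun p hp => mem_sw.2 (d2 (mem_sw.2 hp))
    exact ⟨⟨(sw G2, A2, B1), d1.sw⟩, c2.trans e, ⟨y, e hy⟩, x, mem_sw.2 hx⟩
  choose nx n1 n2 n3 using st
  let q : ℕ → S := fun n => Nat.rec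
    ⟨(G0, range a, range b), h0, inferInstance, countable_range _, countable_range _, subset_rfl,
      subset_rfl, fun p hp => ⟨a1 ⟨p, hp, rfl⟩, b1 ⟨p, hp, rfl⟩⟩, fun t ht => .inl ht,
      fun t ht => .inl ht⟩ nx n
  have qm1 : Monotone fun n => (q n).1.1 := monotone_nat_of_le_succ fun n => n1 n (q n)
  have me : ∀ p, p ∈ ⨆ n, (q n).1.1 ↔ ∃ n, p ∈ (q n).1.1 := fun p =>
    Submodule.mem_iSup_of_directed _ qm1.directed_le
  refine ⟨⨆ n, (q n).1.1, ⋃ n, (q n).1.2.1, ⋃ n, (q n).1.2.2, fun p hp => ?_,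
    le_iSup (fun n => (q n).1.1) 0, countable_iUnion fun n => (q n).2.a3,
    countable_iUnion fun n => (q n).2.a4, fun p hp => ?_, fun t ht => ?_, fun t ht => ?_⟩
  · obtain ⟨n, hn⟩ := (me p).1 hp
    exact (q n).2.a1 p hn
  · obtain ⟨n, hn⟩ := (me p).1 hp
    have := (q n).2.a7 p hn
    exact ⟨Gen_mono (subset_iUnion (fun n => (q n).1.2.1) n) this.1,
      Gen_mono (subset_iUnion (fun n => (q n).1.2.2) n) this.2⟩
  · obtain ⟨n, hn⟩ := mem_iUnion.1 ht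
    rcases (q n).2.a8 t hn with ⟨k, rfl⟩ | ⟨y, hy⟩
    · obtain ⟨y, hy⟩ := n2 k (q k)
      exact ⟨y, (me _).2 ⟨k + 1, hy⟩⟩
    · exact ⟨y, (me _).2 ⟨n, hy⟩⟩
  · obtain ⟨n, hn⟩ := mem_iUnion.1 ht
    rcases (q n).2.a9 t hn with ⟨k, rfl⟩ | ⟨y, hy⟩
    · obtain ⟨y, hy⟩ := n3 k (q k)
      exact ⟨y, (me _).2 ⟨k + 1, hy⟩⟩
    · exact ⟨y, (me _).2 ⟨n, hy⟩⟩

theorem Fr.cardD (F : Fr Unit 0 True X v) {A : Set (T Unit)} (hA : A.Countable) (r : ℕ → ℝ)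
    (x : ℕ → X) : #{f : ℕ → T Unit // (fun n => v (f n)) = x ∧ T.ext r f ∉ A} = 𝔠 := by
  have hT := card_T (Γ := Unit) (by simpa using one_le_aleph0.trans aleph0_le_continuum)
    le_rfl continuum_power_aleph0.le
  refine le_antisymm ((mk_subtype_le _).trans ?_) ?_
  · rw [← power_def, mk_nat]
    exact (power_le_power_right hT).trans continuum_power_aleph0.le
  choose g hg using F.surj
  let e : ℝ → ℕ → T Unit := fun s n => .lin s (g (x n)) (.leaf ())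
  have ei : Function.Injective fun s => T.ext r (e s) := fun s t h => by
    simp only [T.ext.injEq, true_and] at h
    simpa [e] using congrFun h 0
  have := mk_compl_of_infinite ((fun s => T.ext r (e s)) ⁻¹' A) (by
    rw [mk_real]
    exact (le_aleph0_iff_set_countable.2 (hA.preimage ei)).trans_lt aleph0_lt_continuum)
  rw [← mk_real, ← this]
  refine mk_le_of_injective (f := fun s => ⟨e s.1, funext fun n => ?_, s.2⟩) fun s t h =>
    Subtype.ext (ei (congrArg (T.ext r) (congrArg Subtype.val h)))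
  rw [F.lin, F.leaf0, hg, smul_zero, add_zero]

theorem Fr.mat (F : Fr Unit 0 True X v) {A B : Set (T Unit)} (hA : A.Countable)
    (hB : B.Countable) : ∃ M : (ℕ → ℝ) → (ℕ → T Unit) → (ℕ → T Unit) → Prop,
    (∀ r f y, T.ext r f ∉ A → ∃ g, (fun n => v (g n)) = y ∧ M r f g) ∧
    (∀ r g x, T.ext r g ∉ B → ∃ f, (fun n => v (f n)) = x ∧ M r f g) ∧
    (∀ r f f' g, M r f g → M r f' g → (fun n => v (f n)) = (fun n => v (f' n)) → f = f') ∧
    (∀ r f g g', M r f g → M r f g' → (fun n => v (g n)) = (fun n => v (g' n)) → g = g') ∧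
    ∀ r f g, M r f g → T.ext r f ∉ A ∧ T.ext r g ∉ B := by
  let σ := fun r x y =>
    (Cardinal.eq.1 ((F.cardD hA r x).trans (F.cardD hB r y).symm)).some
  refine ⟨fun r f g => ∃ x y p, p.1 = f ∧ (σ r x y p).1 = g,
    fun r f y h => ⟨_, (σ r _ y ⟨f, rfl, h⟩).2.1, _, y, ⟨f, rfl, h⟩, rfl, rfl⟩,
    fun r g x h => ⟨_, ((σ r x _).symm ⟨g, rfl, h⟩).2.1, x, _, _, rfl, by
      rw [Equiv.apply_symm_apply]⟩, ?_, ?_, ?_⟩
  · rintro r _ _ _ ⟨x, y, p, rfl, rfl⟩ ⟨x', y', p', rfl, e⟩ h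
    obtain rfl : x = x' := p.2.1.symm.trans (h.trans p'.2.1)
    obtain rfl : y = y' := by rw [← (σ r x y p).2.1, ← e, (σ r x y' p').2.1]
    rw [(σ r x y).injective (Subtype.ext e)]
  · rintro r _ _ _ ⟨x, y, p, rfl, rfl⟩ ⟨x', y', p', e, rfl⟩ h
    obtain rfl : x = x' := by rw [← p.2.1, ← e, p'.2.1]
    obtain rfl : y = y' := (σ r x y p).2.1.symm.trans (h.trans (σ r x y' p').2.1)
    rw [Subtype.ext e]
  · rintro r _ _ ⟨x, y, p, rfl, rfl⟩
    exact ⟨p.2.2, (σ r x y p).2.2⟩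

end Pool.Agent.H.MP_9991fb_an
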