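import Pool.Agent.H.MP_9991fb_an.E

namespace Pool.Agent.H.MP_9991fb_an
open Set Filter Topology
open scoped Classical

variable {X : Type} [NormedAddCommGroup X] [NormedSpace ℝ X] {v : T Unit → X}

theorem Iso.u1 {G : Submodule ℝ (X × X)} (h : Iso G) {x y z : X} (h1 : (x, y) ∈ G)
    (h2 : (x, z) ∈ G) : y = z := by
  have := h _ (G.sub_mem h1 h2)
  simpa [sub_eq_zero, eq_comm (a := (0 : ℝ))] using this

theorem Iso.u2 {G : Submodule ℝ (X × X)} (h : Iso G) {x y z : X} (h1 : (y, x) ∈ G)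
    (h2 : (z, x) ∈ G) : y = z := h.sw.u1 (mem_sw.2 h1) (mem_sw.2 h2)

def Mt (v : T Unit → X) (M : (ℕ → ℝ) → (ℕ → T Unit) → (ℕ → T Unit) → Prop)
    (G : Submodule ℝ (X × X)) (r : ℕ → ℝ) (f g : ℕ → T Unit) : Prop :=
  M r f g ∧ (∀ n, (v (f n), v (g n)) ∈ G) ∧ (v (.ext r f), v (.ext r g)) ∈ G

theorem Fr.hom (F : Fr Unit 0 True X v) {G0 : Submodule ℝ (X × X)} (h0 : Iso G0)
    [FiniteDimensional ℝ G0] : ∃ U : X ≃ₗᵢ[ℝ] X, ∀ p ∈ G0, U p.1 = p.2 := by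
  obtain ⟨G1, A, B, a1, a2, a3, a4, a5, a6, a7⟩ := F.init h0
  obtain ⟨M, m1, m2, m3, m4, m5⟩ := F.mat a3 a4
  let AG : Submodule ℝ (X × X) → Set (T Unit) := fun G =>
    A ∪ {t | ∃ r f g, t = T.ext r f ∧ Mt v M G r f g}
  let BG : Submodule ℝ (X × X) → Set (T Unit) := fun G =>
    B ∪ {t | ∃ r f g, t = T.ext r g ∧ Mt v M G r f g}
  have hA : ∀ {G G'}, G ≤ G' → Gen v (AG G) ≤ Gen v (AG G') := fun h =>
    Gen_mono (union_subset_union_right _ fun t ⟨r, f, g, e, b1, b2, b3⟩ =>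
      ⟨r, f, g, e, b1, fun n => h (b2 n), h b3⟩)
  have hB : ∀ {G G'}, G ≤ G' → Gen v (BG G) ≤ Gen v (BG G') := fun h =>
    Gen_mono (union_subset_union_right _ fun t ⟨r, f, g, e, b1, b2, b3⟩ =>
      ⟨r, f, g, e, b1, fun n => h (b2 n), h b3⟩)
  obtain ⟨G, hle, hG⟩ := zorn_le_nonempty₀ {G : Submodule ℝ (X × X) | Iso G ∧
      ∀ p ∈ G, p.1 ∈ Gen v (AG G) ∧ p.2 ∈ Gen v (BG G)}
    (fun c hc ch G hG => ⟨sSup c, ⟨iso_chain ch ⟨G, hG⟩ fun G h => (hc h).1, fun p hp => by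
      obtain ⟨G', h1, h2⟩ := (Submodule.mem_sSup_of_directed ⟨G, hG⟩ ch.directedOn).1 hp
      exact ⟨hA (le_sSup h1) ((hc h1).2 p h2).1, hB (le_sSup h1) ((hc h1).2 p h2).2⟩⟩,
      fun _ h => le_sSup h⟩) G1 ⟨a1, fun p hp =>
        ⟨Gen_mono subset_union_left (a5 p hp).1, Gen_mono subset_union_left (a5 p hp).2⟩⟩
  obtain ⟨i1, i2⟩ := hG.prop
  have key : ∀ r f g, M r f g → (∀ n, (v (f n), v (g n)) ∈ G) →
      (v (.ext r f), v (.ext r g)) ∈ G := fun r f g hm hc => by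
    have tr := GX.tr (m := True) (r := r) i1 hc
    by_cases gd : GX True r fun n => v (f n)
    swap
    · rw [F.bad r f gd, F.bad r g (mt tr.2 gd)]
      exact G.zero_mem
    by_cases c1 : T.ext r f ∈ AG G
    · rcases c1 with c1 | ⟨r', f', g', e, b1, b2, b3⟩
      · exact ((m5 r f g hm).1 c1).elim
      obtain ⟨rfl, rfl⟩ := T.ext.inj e
      rwa [m4 r f g g' hm b1 (funext fun n => i1.u1 (hc n) (b2 n))]
    by_cases c2 : T.ext r g ∈ BG G
    · rcases c2 with c2 | ⟨r', f', g', e, b1, b2, b3⟩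
      · exact ((m5 r f g hm).2 c2).elim
      obtain ⟨rfl, rfl⟩ := T.ext.inj e
      rwa [m3 r f f' g hm b1 (funext fun n => i1.u2 (hc n) (b2 n))]
    have l1 := F.lower i1 (fun p hp => (i2 p hp).2) (tr.1 gd) c2 hc (F.good r f gd)
    have l2 := F.lower i1.sw (fun p hp => (i2 _ (mem_sw.1 hp)).1) gd c1
      (fun n => mem_sw.2 (hc n)) (F.good r g (tr.1 gd))
    have l3 := i1.add fun p hp => le_antisymm (l1 p hp) (l2 (p.2, p.1) (mem_sw.2 hp))
    have l4 : (v (.ext r f), v (.ext r g)) ∈ G ⊔ Submodule.span ℝ {(v (.ext r f), v (.ext r g))} :=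
      Submodule.mem_sup_right (Submodule.mem_span_singleton_self _)
    have l5 : G ≤ G ⊔ Submodule.span ℝ {(v (.ext r f), v (.ext r g))} := le_sup_left
    have l6 := fun Y Z => sup_ind (G := G) (Y := Y) (Z := Z) (q := (v (.ext r f), v (.ext r g)))
    generalize G ⊔ Submodule.span ℝ {(v (.ext r f), v (.ext r g))} = G' at l3 l4 l5 l6
    have l7 : Mt v M G' r f g := ⟨hm, fun n => l5 (hc n), l4⟩
    refine hG.le_of_ge ⟨l3, l6 _ _ (fun p hp => ⟨hA l5 (i2 p hp).1, hB l5 (i2 p hp).2⟩)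
      ((Gen_cl _).2.2 r f (.inr ⟨r, f, g, rfl, l7⟩) fun n => hA l5 (i2 _ (hc n)).1)
      ((Gen_cl _).2.2 r g (.inr ⟨r, f, g, rfl, l7⟩) fun n => hB l5 (i2 _ (hc n)).2)⟩ l5 l4
  have s1 : ∀ t, ∃ y, (v t, y) ∈ G := fun t => by
    induction t with
    | leaf i => exact ⟨0, by rw [F.leaf0]; exact G.zero_mem⟩
    | lin s a b ha hb =>
      obtain ⟨y, hy⟩ := ha
      obtain ⟨z, hz⟩ := hb
      exact ⟨y + s • z, by rw [F.lin]; exact G.add_mem hy (G.smul_mem s hz)⟩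
    | ext r f ih =>
      choose y hy using ih
      by_cases c : T.ext r f ∈ A
      · exact (a6 _ c).imp fun y h => hle h
      obtain ⟨g, rfl, hm⟩ := m1 r f y c
      exact ⟨_, key r f g hm hy⟩
  have s2 : ∀ t, ∃ y, (y, v t) ∈ G := fun t => by
    induction t with
    | leaf i => exact ⟨0, by rw [F.leaf0]; exact G.zero_mem⟩
    | lin s a b ha hb =>
      obtain ⟨y, hy⟩ := ha
      obtain ⟨z, hz⟩ := hb
      exact ⟨y + s • z, by rw [F.lin]; exact G.add_mem hy (G.smul_mem s hz)⟩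
    | ext r g ih =>
      choose y hy using ih
      by_cases c : T.ext r g ∈ B
      · exact (a7 _ c).imp fun y h => hle h
      obtain ⟨f, rfl, hm⟩ := m2 r g y c
      exact ⟨_, key r f g hm hy⟩
  obtain ⟨w, hw⟩ := i1.map fun b => by
    obtain ⟨t, rfl⟩ := F.surj b
    exact s1 t
  refine ⟨LinearIsometryEquiv.ofSurjective w fun y => ?_, fun p hp => hw p (hle (a2 hp))⟩
  obtain ⟨t, rfl⟩ := F.surj y
  obtain ⟨x, hx⟩ := s2 t
  exact ⟨x, hw _ hx⟩

theorem Fr.homog (F : Fr Unit 0 True X v) (E E' : Submodule ℝ X) [FiniteDimensional ℝ E]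
    (h : E ≃ₗᵢ[ℝ] E') : ∃ U : X ≃ₗᵢ[ℝ] X, ∀ e : E, U e = h e := by
  have h0 : Iso (LinearMap.range (E.subtype.prod (E'.subtype.comp h.toLinearEquiv.toLinearMap))) := by
    rintro _ ⟨a, rfl⟩
    exact (h.norm_map a).symm
  obtain ⟨U, hU⟩ := F.hom h0
  exact ⟨U, fun e => hU _ ⟨e, rfl⟩⟩

theorem notUD [CompleteSpace X] (φ : ℕ → X →L[ℝ] ℝ) (h2 : ∀ x, (∀ n, φ n x = 0) → x = 0) :
    ∃ (Y : Type) (_ : NormedAddCommGroup Y) (_ : NormedSpace ℝ Y) (_ : CompleteSpace Y)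
      (_ : TopologicalSpace.SeparableSpace Y) (S : Submodule ℝ Y) (f : S →ₗᵢ[ℝ] X),
      IsClosed (S : Set Y) ∧ ¬ ∃ g : Y →ₗᵢ[ℝ] X, ∀ s : S, g s = f s := by
  have : ∀ n k : ℕ, ∃ x, ‖x‖ ≤ 1 ∧ ‖φ n‖ - 1 / (k + 1) < ‖φ n x‖ := fun n k => by
    obtain ⟨x, h1, h2⟩ := (φ n).exists_lt_apply_of_lt_opNorm
      (sub_lt_self ‖φ n‖ (Nat.one_div_pos_of_nat (n := k)))
    exact ⟨x, h1.le, h2⟩
  choose x x1 x2 using this
  let A := (Submodule.span ℝ (range fun p : ℕ × ℕ => x p.1 p.2)).topologicalClosure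
  have : TopologicalSpace.SeparableSpace A :=
    ((countable_range _).isSeparable.span.closure).separableSpace
  have xA : ∀ n k, x n k ∈ A := fun n k =>
    Submodule.le_topologicalClosure _ (Submodule.subset_span ⟨(n, k), rfl⟩)
  refine ⟨A × ℝ, inferInstance, inferInstance, inferInstance, inferInstance,
    LinearMap.ker (LinearMap.snd ℝ A ℝ), ⟨A.subtype.comp ((LinearMap.fst ℝ A ℝ).comp
      (Submodule.subtype _)), fun p => ?_⟩, isClosed_eq continuous_snd continuous_const, ?_⟩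
  · have : p.1.2 = 0 := p.2
    change ‖p.1.1‖ = max ‖p.1.1‖ ‖p.1.2‖
    rw [this, norm_zero, max_eq_left (norm_nonneg _)]
  rintro ⟨g, hg⟩
  have h1 : ‖g (0, 1)‖ = 1 := by simp [g.norm_map]
  have h3 : ∀ n k (s : ℝ), |s| ≤ 1 → |φ n (x n k) + s * φ n (g (0, 1))| ≤ ‖φ n‖ := fun n k s hs => by
    have e : x n k + s • g (0, 1) = g (⟨x n k, xA n k⟩, s) := by
      have : x n k = g (⟨x n k, xA n k⟩, 0) := (hg ⟨(⟨x n k, xA n k⟩, 0), rfl⟩).symm
      rw [← map_smul]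
      conv_lhs => rw [this]
      rw [← map_add]
      simp
    have := (φ n).le_opNorm (x n k + s • g (0, 1))
    rw [map_add, map_smul, e, g.norm_map] at this
    exact this.trans (mul_le_of_le_one_right (norm_nonneg _) (max_le (x1 n k) hs))
  rw [h2 (g (0, 1)) fun n => ?_, norm_zero] at h1
  · exact zero_ne_one h1
  refine abs_nonpos_iff.1 (le_of_forall_pos_le_add fun ε hε => ?_)
  obtain ⟨k, hk⟩ := exists_nat_one_div_lt hε
  have a1 := abs_le.1 (h3 n k 1 (by simp))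
  have a2 := abs_le.1 (h3 n k (-1) (by simp))
  have a3 := x2 n k
  rw [Real.norm_eq_abs] at a3
  rcases abs_cases (φ n (x n k)) with h | h <;> rw [abs_le] <;> constructor <;> linarith

end Pool.Agent.H.MP_9991fb_an
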